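import Pool.Agent.W175.GF.Stm

/-!
# Algebraic functions on a half plane in the logarithmic coordinate
-/

set_option autoImplicit false

namespace Pool.Agent.W976.GF

open Pool.Agent.W175.GF Complex Polynomial Filter

/-- a vanishing product of analytic functions has a vanishing factor -/
theorem exists_factor {ι : Type} (S : Finset ι) (G : ι → ℂ → ℂ) (H : Set ℂ)
    (hH : IsPreconnected H) (hne : H.Nonempty) (hG : ∀ i ∈ S, AnalyticOnNhd ℂ (G i) H)
    (h : ∀ w ∈ H, ∏ i ∈ S, G i w = 0) : ∃ i ∈ S, ∀ w ∈ H, G i w = 0 := by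
  classical
  induction S using Finset.induction_on with
  | empty =>
    obtain ⟨w, hw⟩ := hne
    have := h w hw
    simp at this
  | @insert a S ha ih =>
    have h1 : AnalyticOnNhd ℂ (fun w => ∏ i ∈ S, G i w) H :=
      Finset.analyticOnNhd_fun_prod S (fun i hi => hG i (Finset.mem_insert_of_mem hi))
    rcases AnalyticOnNhd.eq_zero_or_eq_zero_of_mul_eq_zero (hG a (Finset.mem_insert_self _ _)) h1
      (fun w hw => by
        have h2 := h w hw
        rw [Finset.prod_insert ha] at h2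
        exact h2) hH with h2 | h2
    · exact ⟨a, Finset.mem_insert_self _ _, h2⟩
    · obtain ⟨i, hi, h3⟩ := ih (fun i hi => hG i (Finset.mem_insert_of_mem hi)) h2
      exact ⟨i, Finset.mem_insert_of_mem hi, h3⟩

theorem lower (p : ℂ[X]) (hp : p ≠ 0) :
    ∃ c > (0 : ℝ), ∃ R : ℝ, ∀ x : ℂ, R ≤ ‖x‖ → c ≤ ‖p.eval x‖ := by
  by_cases h : 0 < degree p
  · have h1 := p.tendsto_norm_atTop h (l := comap (fun x : ℂ => ‖x‖) atTop) (z := fun x => x)
      tendsto_comap
    have h2 := h1.eventually_ge_atTop 1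
    rw [Filter.eventually_comap] at h2
    obtain ⟨R, hR⟩ := Filter.eventually_atTop.1 h2
    exact ⟨1, one_pos, R, fun x hx => hR ‖x‖ hx x rfl⟩
  · have h1 := eq_C_of_degree_le_zero (not_lt.1 h)
    refine ⟨‖p.coeff 0‖, ?_, 0, ?_⟩
    · rw [gt_iff_lt, norm_pos_iff]
      intro h2
      rw [h2, C_0] at h1
      exact hp h1
    · intro x _
      rw [h1, eval_C, coeff_C_zero]

theorem upper (p : ℂ[X]) : ∃ C : ℝ, 0 ≤ C ∧ ∃ D : ℕ, ∀ x : ℂ, ‖p.eval x‖ ≤ C * (1 + ‖x‖) ^ D := by
  refine ⟨∑ i ∈ Finset.range (p.natDegree + 1), ‖p.coeff i‖,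
    Finset.sum_nonneg fun _ _ => norm_nonneg _, p.natDegree, ?_⟩
  intro x
  rw [eval_eq_sum_range, Finset.sum_mul]
  refine (norm_sum_le _ _).trans (Finset.sum_le_sum ?_)
  intro i hi
  rw [norm_mul, norm_pow]
  have h1 : ‖x‖ ^ i ≤ (1 + ‖x‖) ^ p.natDegree := by
    calc ‖x‖ ^ i ≤ (1 + ‖x‖) ^ i := pow_le_pow_left₀ (norm_nonneg _) (by linarith) _
      _ ≤ _ := pow_le_pow_right₀ (by linarith [norm_nonneg x])
        (Nat.lt_succ_iff.1 (Finset.mem_range.1 hi))
  exact mul_le_mul_of_nonneg_left h1 (norm_nonneg _)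

theorem upper_sum (q : ℕ → ℂ[X]) (n : ℕ) : ∃ C : ℝ, 0 ≤ C ∧ ∃ D : ℕ, ∀ x : ℂ,
    ∑ k ∈ Finset.range n, ‖(q k).eval x‖ ≤ C * (1 + ‖x‖) ^ D := by
  induction n with
  | zero => exact ⟨0, le_rfl, 0, fun x => by simp⟩
  | succ n ih =>
    obtain ⟨C, hC, D, h⟩ := ih
    obtain ⟨C', hC', D', h'⟩ := upper (q n)
    refine ⟨C + C', add_nonneg hC hC', max D D', ?_⟩
    intro x
    rw [Finset.sum_range_succ, add_mul]
    have h1 : (1 : ℝ) ≤ 1 + ‖x‖ := by linarith [norm_nonneg x]
    exact add_le_add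
      ((h x).trans (mul_le_mul_of_nonneg_left (pow_le_pow_right₀ h1 (le_max_left _ _)) hC))
      ((h' x).trans (mul_le_mul_of_nonneg_left (pow_le_pow_right₀ h1 (le_max_right _ _)) hC'))

theorem root_bound (P : ℂ[X]) (d : ℕ) (hd : P.natDegree = d) (h0 : P ≠ 0) (y : ℂ)
    (hy : P.eval y = 0) :
    ‖y‖ ≤ (∑ k ∈ Finset.range d, ‖P.coeff k‖) / ‖P.leadingCoeff‖ + 1 := by
  have h1 := IsRoot.norm_lt_cauchyBound h0 (a := y) hy
  have h2 : (‖y‖ : ℝ) ≤ (cauchyBound P : ℝ) := by exact_mod_cast h1.le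
  refine h2.trans ?_
  unfold cauchyBound
  push_cast
  rw [hd]
  have h3 : ((Finset.sup (Finset.range d) (‖P.coeff ·‖₊) : NNReal) : ℝ) ≤
      ∑ k ∈ Finset.range d, ‖P.coeff k‖ := by
    have : (Finset.sup (Finset.range d) (‖P.coeff ·‖₊) : NNReal) ≤
        ∑ k ∈ Finset.range d, ‖P.coeff k‖₊ :=
      Finset.sup_le fun i hi => Finset.single_le_sum (f := fun k => ‖P.coeff k‖₊)
        (fun _ _ => zero_le) hi
    have h4 : ((∑ k ∈ Finset.range d, ‖P.coeff k‖₊ : NNReal) : ℝ) =
        ∑ k ∈ Finset.range d, ‖P.coeff k‖ := by push_cast; rfl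
    rw [← h4]
    exact_mod_cast this
  have h5 : (0 : ℝ) ≤ ‖P.leadingCoeff‖ := norm_nonneg _
  gcongr

theorem evalEval_map (Q : ℂ[X][X]) (x y : ℂ) :
    (Q.map (evalRingHom x)).eval y = Q.evalEval x y := by
  rw [eval_map, eval₂_evalRingHom]

theorem isPre (ρ : ℝ) : IsPreconnected {w : ℂ | ρ < w.re} :=
  (convex_halfSpace_re_gt ρ).isPreconnected

theorem isOp (ρ : ℝ) : IsOpen {w : ℂ | ρ < w.re} := isOpen_lt continuous_const continuous_re

theorem norm_exp_ge (tc w : ℂ) : Real.exp w.re - ‖tc‖ ≤ ‖tc + exp w‖ := by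
  have h := norm_sub_norm_le (exp w) (-tc)
  rw [norm_neg, sub_neg_eq_add, add_comm (exp w), norm_exp] at h
  exact h

theorem period (ρ : ℝ) (tc : ℂ) (Q : ℂ[X][X]) (F : ℂ → ℂ) (hQ : Q ≠ 0)
    (hF : DifferentiableOn ℂ F {w | ρ < w.re})
    (hQF : ∀ w : ℂ, ρ < w.re → Q.evalEval (tc + exp w) (F w) = 0) :
    ∃ e : ℕ, 1 ≤ e ∧ ∀ w : ℂ, ρ < w.re → F (w + e * (2 * Real.pi * I)) = F w := by
  classical
  set H : Set ℂ := {w | ρ < w.re} with hH
  have hre : ∀ (k : ℕ) (w : ℂ), (w + k * (2 * Real.pi * I)).re = w.re := by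
    intro k w
    simp
  have hFan : ∀ k : ℕ, AnalyticOnNhd ℂ (fun w => F (w + k * (2 * Real.pi * I))) H := by
    intro k
    refine DifferentiableOn.analyticOnNhd ?_ (isOp ρ)
    refine hF.comp (by fun_prop) ?_
    intro w hw
    show ρ < (w + k * (2 * Real.pi * I)).re
    rw [hre]
    exact hw
  set d := Q.natDegree with hd
  set S := (Finset.range (d + 1) ×ˢ Finset.range (d + 1)).filter (fun p => p.1 < p.2) with hS
  set G : ℕ × ℕ → ℂ → ℂ := fun p w => F (w + p.1 * (2 * Real.pi * I)) -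
    F (w + p.2 * (2 * Real.pi * I)) with hG
  have hGan : ∀ p ∈ S, AnalyticOnNhd ℂ (G p) H := fun p _ => (hFan p.1).sub (hFan p.2)
  have hlc : AnalyticOnNhd ℂ (fun w => Q.leadingCoeff.eval (tc + exp w)) H := by
    refine DifferentiableOn.analyticOnNhd ?_ (isOp ρ)
    have h1 : Differentiable ℂ (fun w => Q.leadingCoeff.eval (tc + exp w)) :=
      Q.leadingCoeff.differentiable.comp (by fun_prop)
    exact h1.differentiableOn
  have hne : H.Nonempty := ⟨((ρ + 1 : ℝ) : ℂ), by
    show ρ < ((ρ + 1 : ℝ) : ℂ).re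
    rw [ofReal_re]; linarith⟩
  have key : ∀ w ∈ H, Q.leadingCoeff.eval (tc + exp w) * ∏ p ∈ S, G p w = 0 := by
    intro w hw
    by_cases h0 : Q.leadingCoeff.eval (tc + exp w) = 0
    · rw [h0, zero_mul]
    · have hP0 : (evalRingHom (tc + exp w)) Q.leadingCoeff ≠ 0 := h0
      have hdeg := natDegree_map_of_leadingCoeff_ne_zero (evalRingHom (tc + exp w)) hP0
      have hPne : Q.map (evalRingHom (tc + exp w)) ≠ 0 := by
        intro h
        have h1 := coeff_map (p := Q) (evalRingHom (tc + exp w)) Q.natDegree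
        rw [h, coeff_zero] at h1
        exact hP0 h1.symm
      have hroot : ∀ k ∈ Finset.range (d + 1), F (w + (k : ℕ) * (2 * Real.pi * I)) ∈
          (Q.map (evalRingHom (tc + exp w))).roots.toFinset := by
        intro k _
        rw [Multiset.mem_toFinset, mem_roots hPne, IsRoot.def, evalEval_map]
        have h1 := hQF (w + (k : ℕ) * (2 * Real.pi * I)) (by rw [hre]; exact hw)
        have h2 : exp (w + (k : ℕ) * (2 * Real.pi * I)) = exp w := by
          rw [exp_eq_exp_iff_exists_int]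
          exact ⟨k, by push_cast; ring⟩
        rw [h2] at h1
        exact h1
      have hcard : (Q.map (evalRingHom (tc + exp w))).roots.toFinset.card <
          (Finset.range (d + 1)).card := by
        rw [Finset.card_range]
        refine Nat.lt_succ_iff.2 ?_
        exact (Multiset.toFinset_card_le _).trans ((card_roots' _).trans hdeg.le)
      obtain ⟨k, hk, m, hm, hkm, hFe⟩ :=
        Finset.exists_ne_map_eq_of_card_lt_of_maps_to hcard hroot
      apply mul_eq_zero_of_right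
      rcases lt_or_gt_of_ne hkm with h | h
      · refine Finset.prod_eq_zero (i := (k, m)) ?_ ?_
        · rw [hS, Finset.mem_filter, Finset.mem_product]
          exact ⟨⟨hk, hm⟩, h⟩
        · simp only [hG]
          rw [hFe, sub_self]
      · refine Finset.prod_eq_zero (i := (m, k)) ?_ ?_
        · rw [hS, Finset.mem_filter, Finset.mem_product]
          exact ⟨⟨hm, hk⟩, h⟩
        · simp only [hG]
          rw [hFe, sub_self]
  have hprod : AnalyticOnNhd ℂ (fun w => ∏ p ∈ S, G p w) H :=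
    Finset.analyticOnNhd_fun_prod S hGan
  rcases AnalyticOnNhd.eq_zero_or_eq_zero_of_mul_eq_zero hlc hprod key (isPre ρ) with h1 | h1
  · exfalso
    obtain ⟨c, hc, R, hR⟩ := lower Q.leadingCoeff (leadingCoeff_ne_zero.2 hQ)
    set a : ℝ := max (ρ + 1) (max R 0 + ‖tc‖) with ha
    have h2 : ρ < ((a : ℝ) : ℂ).re := by
      rw [ofReal_re]; exact lt_of_lt_of_le (by linarith) (le_max_left _ _)
    have h3 := h1 _ h2
    have h4 : R ≤ ‖tc + exp (a : ℂ)‖ := by
      have h5 := norm_exp_ge tc (a : ℂ)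
      rw [ofReal_re] at h5
      have h6 : a + 1 ≤ Real.exp a := Real.add_one_le_exp a
      have h7 : max R 0 + ‖tc‖ ≤ a := le_max_right _ _
      have h8 : R ≤ max R 0 := le_max_left _ _
      linarith
    have h5 := hR _ h4
    rw [h3, norm_zero] at h5
    exact absurd h5 (not_le.2 hc)
  · obtain ⟨p, hp, h2⟩ := exists_factor S G H (isPre ρ) hne hGan h1
    rw [hS, Finset.mem_filter] at hp
    refine ⟨p.2 - p.1, by omega, ?_⟩
    intro w hw
    have h3 := h2 (w - p.1 * (2 * Real.pi * I)) (by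
      show ρ < (w - p.1 * (2 * Real.pi * I)).re
      have : (w - p.1 * (2 * Real.pi * I)).re = w.re := by simp
      rw [this]; exact hw)
    simp only [hG] at h3
    rw [sub_add_cancel, sub_eq_zero] at h3
    rw [h3]
    congr 1
    rw [Nat.cast_sub hp.2.le]
    ring

theorem growth (tc : ℂ) (Q : ℂ[X][X]) (hQ : Q ≠ 0) : ∃ (C ρ' : ℝ) (D : ℕ), 0 ≤ C ∧ 0 ≤ ρ' ∧
    ∀ w y : ℂ, ρ' ≤ w.re → Q.evalEval (tc + exp w) y = 0 → ‖y‖ ≤ C * Real.exp w.re ^ D := by
  obtain ⟨c, hc, R, hR⟩ := lower Q.leadingCoeff (leadingCoeff_ne_zero.2 hQ)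
  obtain ⟨C, hC, D, hD⟩ := upper_sum (fun k => Q.coeff k) Q.natDegree
  refine ⟨C * (2 + ‖tc‖) ^ D / c + 1, max R 0 + ‖tc‖, D, by positivity, by positivity, ?_⟩
  intro w y hw hy
  have h1 : R ≤ ‖tc + exp w‖ := by
    have h5 := norm_exp_ge tc w
    have h6 : w.re + 1 ≤ Real.exp w.re := Real.add_one_le_exp _
    have h8 : R ≤ max R 0 := le_max_left _ _
    linarith
  have h2 := hR _ h1
  have hP0 : (evalRingHom (tc + exp w)) Q.leadingCoeff ≠ 0 := by
    intro h
    have h3 : Q.leadingCoeff.eval (tc + exp w) = 0 := h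
    rw [h3, norm_zero] at h2
    exact absurd h2 (not_le.2 hc)
  have hdeg := natDegree_map_of_leadingCoeff_ne_zero (evalRingHom (tc + exp w)) hP0
  have hPne : Q.map (evalRingHom (tc + exp w)) ≠ 0 := by
    intro h
    have h1 := coeff_map (p := Q) (evalRingHom (tc + exp w)) Q.natDegree
    rw [h, coeff_zero] at h1
    exact hP0 h1.symm
  have h3 := root_bound (Q.map (evalRingHom (tc + exp w))) Q.natDegree hdeg hPne y
    (by rw [evalEval_map]; exact hy)
  have h4 : ‖(Q.map (evalRingHom (tc + exp w))).leadingCoeff‖ =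
      ‖Q.leadingCoeff.eval (tc + exp w)‖ := by
    rw [leadingCoeff, hdeg, coeff_map]
    rfl
  have h5 : ∑ k ∈ Finset.range Q.natDegree, ‖(Q.map (evalRingHom (tc + exp w))).coeff k‖ =
      ∑ k ∈ Finset.range Q.natDegree, ‖(Q.coeff k).eval (tc + exp w)‖ := by
    refine Finset.sum_congr rfl fun k _ => ?_
    rw [coeff_map]
    rfl
  rw [h4, h5] at h3
  have h6 := hD (tc + exp w)
  have h10 : 1 ≤ Real.exp w.re := by
    refine Real.one_le_exp ?_
    have : 0 ≤ max R 0 := le_max_right _ _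
    have := norm_nonneg tc
    linarith
  have h7 : 1 + ‖tc + exp w‖ ≤ (2 + ‖tc‖) * Real.exp w.re := by
    have h8 : ‖tc + exp w‖ ≤ ‖tc‖ + Real.exp w.re := by
      refine (norm_add_le _ _).trans ?_
      rw [norm_exp]
    have h9 := norm_nonneg tc
    nlinarith
  have h8 : (1 + ‖tc + exp w‖) ^ D ≤ (2 + ‖tc‖) ^ D * Real.exp w.re ^ D := by
    rw [← mul_pow]
    exact pow_le_pow_left₀ (by positivity) h7 _
  have h9 : (1 : ℝ) ≤ Real.exp w.re ^ D := one_le_pow₀ h10
  calc ‖y‖ ≤ (∑ k ∈ Finset.range Q.natDegree, ‖(Q.coeff k).eval (tc + exp w)‖) /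
        ‖Q.leadingCoeff.eval (tc + exp w)‖ + 1 := h3
    _ ≤ C * ((2 + ‖tc‖) ^ D * Real.exp w.re ^ D) / c + Real.exp w.re ^ D := by
        gcongr
        exact h6.trans (mul_le_mul_of_nonneg_left h8 hC)
    _ = _ := by ring

theorem puis : S_PUIS := by
  intro ρ tc Q F hQ hF hQF
  obtain ⟨e, he, hper⟩ := period ρ tc Q F hQ hF hQF
  obtain ⟨C, ρ', D, hC, hρ', hgr⟩ := growth tc Q hQ
  have hre : ∀ (k : ℝ) (w : ℂ), (w + k * (2 * Real.pi * I)).re = w.re := by
    intro k w
    simp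
  -- periodicity for integers
  have hperN : ∀ (n : ℕ) (w : ℂ), ρ < w.re → F (w + (n : ℝ) * (e * (2 * Real.pi * I))) = F w := by
    intro n
    induction n with
    | zero => intro w _; simp
    | succ n ih =>
      intro w hw
      have h1 : w + ((n + 1 : ℕ) : ℝ) * (e * (2 * Real.pi * I)) =
          (w + (n : ℝ) * (e * (2 * Real.pi * I))) + e * (2 * Real.pi * I) := by
        push_cast; ring
      rw [h1, hper, ih w hw]
      have h2 : (w + (n : ℝ) * (e * (2 * Real.pi * I))).re = w.re := by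
        simp
      rw [h2]; exact hw
  have hperZ : ∀ (n : ℤ) (w : ℂ), ρ < w.re → F (w + (n : ℂ) * (e * (2 * Real.pi * I))) = F w := by
    intro n w hw
    obtain ⟨m, rfl | rfl⟩ := n.eq_nat_or_neg
    · have := hperN m w hw
      push_cast at this ⊢
      exact this
    · have h2 : (w + ((-(m : ℤ) : ℤ) : ℂ) * (e * (2 * Real.pi * I))).re = w.re := by
        simp
      have := hperN m (w + ((-(m : ℤ) : ℤ) : ℂ) * (e * (2 * Real.pi * I))) (by rw [h2]; exact hw)
      rw [← this]
      congr 1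
      push_cast
      ring
  have he0 : (0 : ℝ) < e := by exact_mod_cast he
  have heC : (e : ℂ) ≠ 0 := by
    have : e ≠ 0 := by omega
    exact_mod_cast this
  set a := max (max ρ ρ') 0 + 1 with ha
  set r := Real.exp (-(a / e)) with hr
  have hr0 : 0 < r := Real.exp_pos _
  -- points over the punctured disc
  have hU : ∀ u : ℂ, exp u ∈ U r → a < (-(e * u)).re := by
    intro u hu
    have h1 : ‖exp u‖ < r := hu.2
    rw [norm_exp, hr, Real.exp_lt_exp] at h1
    have h2 : (-(e * u)).re = -(e * u.re) := by simp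
    rw [h2]
    have h3 : e * u.re < e * (-(a / e)) := mul_lt_mul_of_pos_left h1 he0
    have h4 : (e : ℝ) * (-(a / e)) = -a := by field_simp
    linarith
  have haρ : ρ < a := by
    have h1 : ρ ≤ max ρ ρ' := le_max_left _ _
    have h2 : max ρ ρ' ≤ max (max ρ ρ') 0 := le_max_left _ _
    linarith
  have haρ' : ρ' < a := by
    have h1 : ρ' ≤ max ρ ρ' := le_max_right _ _
    have h2 : max ρ ρ' ≤ max (max ρ ρ') 0 := le_max_left _ _
    linarith
  have hmain : ∀ u : ℂ, exp u ∈ U r → F (-(e * log (exp u))) = F (-(e * u)) := by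
    intro u hu
    obtain ⟨n, hn⟩ := exp_eq_exp_iff_exists_int.1 (exp_log (exp_ne_zero u))
    rw [hn]
    have h1 : -(e * (u + n * (2 * Real.pi * I))) = -(e * u) + ((-n : ℤ) : ℂ) *
        (e * (2 * Real.pi * I)) := by
      push_cast; ring
    rw [h1, hperZ (-n) _ (haρ.trans (hU u hu))]
  refine ⟨e, r, fun s => F (-(e * log s)), he, hr0, ⟨?_, e * D, C, ?_⟩, ?_⟩
  · intro s₀ hs₀
    have hs0 : s₀ ≠ 0 := norm_pos_iff.1 hs₀.1
    have hopen : IsOpen (U r) := by
      unfold U
      exact (isOpen_lt continuous_const continuous_norm).inter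
        (isOpen_lt continuous_norm continuous_const)
    refine DifferentiableAt.differentiableWithinAt ?_
    have h1 : (fun s => F (-(e * log s))) =ᶠ[nhds s₀]
        fun s => F (-(e * (log (s / s₀) + log s₀))) := by
      filter_upwards [hopen.mem_nhds hs₀] with s hs
      have hsne : s ≠ 0 := norm_pos_iff.1 hs.1
      have h2 : exp (log (s / s₀) + log s₀) = s := by
        rw [exp_add, exp_log (div_ne_zero hsne hs0), exp_log hs0, div_mul_cancel₀ _ hs0]
      have h3 := hmain (log (s / s₀) + log s₀) (by rw [h2]; exact hs)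
      rw [h2] at h3
      exact h3
    refine DifferentiableAt.congr_of_eventuallyEq ?_ h1
    have h4 : exp (log (s₀ / s₀) + log s₀) = s₀ := by
      rw [exp_add, exp_log (div_ne_zero hs0 hs0), exp_log hs0, div_mul_cancel₀ _ hs0]
    have h5 : DifferentiableAt ℂ F (-(e * (log (s₀ / s₀) + log s₀))) := by
      refine hF.differentiableAt ((isOp ρ).mem_nhds ?_)
      exact haρ.trans (hU _ (by rw [h4]; exact hs₀))
    refine h5.comp s₀ (f := fun s => -(e * (log (s / s₀) + log s₀))) ?_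
    refine DifferentiableAt.neg (DifferentiableAt.const_mul (DifferentiableAt.add_const _ ?_) _)
    refine DifferentiableAt.clog (by fun_prop) ?_
    rw [div_self hs0]
    exact one_mem_slitPlane
  · intro s hs
    have hsne : s ≠ 0 := norm_pos_iff.1 hs.1
    have h1 : exp (log s) = s := exp_log hsne
    have h2 := hU (log s) (by rw [h1]; exact hs)
    have h3 := hgr (-(e * log s)) (F (-(e * log s))) (haρ'.trans h2).le (hQF _ (haρ.trans h2))
    refine h3.trans (le_of_eq ?_)
    have h4 : (-(e * log s)).re = -(e * Real.log ‖s‖) := by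
      simp [log_re]
    rw [h4, pow_mul]
    congr 2
    rw [Real.exp_neg, mul_comm, Real.exp_mul, Real.exp_log hs.1, Real.rpow_natCast, inv_pow]
  · intro w hw
    have h1 := hU (-w / e) hw
    have h2 : -(e * (-w / e)) = w := by field_simp
    rw [h2] at h1
    refine ⟨haρ.trans h1, ?_⟩
    have h3 := hmain (-w / e) hw
    rw [h2] at h3
    exact h3.symm

end Pool.Agent.W976.GF
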